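import Pool.Agent.Y462.SS.St

/-!
# Free groups of any rank
-/

set_option autoImplicit false

namespace Pool.Agent.Y179.SS

open Pool.Agent.Y462.SS

/-- trivial groups -/
theorem of_subsingleton {C : ∀ (G : Type) [Group G], Prop} (hC : Closed C) (G : Type) [Group G]
    [Subsingleton G] : C G :=
  hC.of_injective G (Multiplicative ℤ) 1 (fun _ _ _ => Subsingleton.elim _ _) hC.int

/-- free groups of finite rank -/
theorem free_fin {C : ∀ (G : Type) [Group G], Prop} (hC : Closed C) (α : Type) [Finite α] :
    C (FreeGroup α) := by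
  induction α using Finite.induction_empty_option with
  | of_equiv e h =>
    exact hC.of_injective _ _ (FreeGroup.freeGroupCongr e).symm.toMonoidHom
      (FreeGroup.freeGroupCongr e).symm.injective h
  | h_empty => exact of_subsingleton hC _
  | @h_option α _ h =>
    let f : FreeGroup (Option α) →* Monoid.Coprod (FreeGroup α) (Multiplicative ℤ) :=
      FreeGroup.lift fun o => match o with
        | none => Monoid.Coprod.inr (Multiplicative.ofAdd 1)
        | some a => Monoid.Coprod.inl (FreeGroup.of a)
    let g : Monoid.Coprod (FreeGroup α) (Multiplicative ℤ) →* FreeGroup (Option α) :=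
      Monoid.Coprod.lift (FreeGroup.map some) (zpowersHom _ (FreeGroup.of none))
    have hgf : g.comp f = MonoidHom.id _ := by
      ext o
      cases o with
      | none => simp [f, g]
      | some a => simp [f, g]
    refine hC.of_injective _ _ f ?_ (hC.coprod _ _ h hC.int)
    intro x y hxy
    have h1 := DFunLike.congr_fun hgf x
    have h2 := DFunLike.congr_fun hgf y
    simp only [MonoidHom.comp_apply, MonoidHom.id_apply] at h1 h2
    rw [← h1, ← h2, hxy]

theorem t_free : S_FREE := by
  classical
  intro C hC α
  refine hC.colim (Finset α) (fun i j => ⟨i ∪ j, Finset.subset_union_left,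
      Finset.subset_union_right⟩) (fun s => FreeGroup {x // x ∈ s})
    (fun i j h => FreeGroup.map fun x => ⟨x.1, h x.2⟩) (FreeGroup α)
    (fun s => FreeGroup.map Subtype.val) ?_ ?_ ?_ ?_ ?_ ?_
  · intro i h x
    exact FreeGroup.map.id' x
  · intro i j k h h' x
    rw [FreeGroup.map.comp]
    rfl
  · intro i j h x
    rw [FreeGroup.map.comp]
    rfl
  · intro y
    induction y using FreeGroup.induction_on with
    | C1 => exact ⟨∅, 1, map_one _⟩
    | of a => exact ⟨{a}, FreeGroup.of ⟨a, Finset.mem_singleton_self a⟩, by simp⟩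
    | inv_of a h =>
      obtain ⟨i, x, hx⟩ := h
      exact ⟨i, x⁻¹, by rw [map_inv, hx]⟩
    | mul x y hx hy =>
      obtain ⟨i, x', hx'⟩ := hx
      obtain ⟨j, y', hy'⟩ := hy
      refine ⟨i ∪ j, FreeGroup.map (fun z => ⟨z.1, Finset.subset_union_left z.2⟩) x' *
        FreeGroup.map (fun z => ⟨z.1, Finset.subset_union_right z.2⟩) y', ?_⟩
      rw [map_mul, FreeGroup.map.comp, FreeGroup.map.comp, ← hx', ← hy']
      rfl
  · intro i x hx
    refine ⟨i, le_rfl, ?_⟩
    have hinj : Function.Injective (FreeGroup.map (Subtype.val : {x // x ∈ i} → α)) :=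
      FreeGroup.map_injective Subtype.val_injective
    have : x = 1 := hinj (by rw [hx, map_one])
    rw [this, map_one]
  · intro i
    exact free_fin hC _

end Pool.Agent.Y179.SS
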